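import Pool.Agent.H32.N6H.Targets

set_option autoImplicit false

open Polynomial Matrix Pool.Agent.H32.N6H

namespace Pool.Agent.H49.HN

variable {F E : Type} [Field F] [Field E]

theorem pen_map (φ : F →+* E) {n : ℕ} (A B : Matrix (Fin n) (Fin n) F) :
    pen (A.map φ) (B.map φ) = (mapRingHom φ).mapMatrix (pen A B) := by
  ext1 i j
  simp only [pen, Matrix.sub_apply, Matrix.map_apply, Matrix.smul_apply, smul_eq_mul,
    RingHom.mapMatrix_apply, coe_mapRingHom, Polynomial.map_sub, Polynomial.map_mul, map_C, map_X]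

theorem cc_map (φ : F →+* E) {n : ℕ} (l : Fin n → F) :
    cc (fun i => φ (l i)) = (mapRingHom φ) ∘ (cc l) := by
  funext i
  simp only [cc, Function.comp_apply, coe_mapRingHom, map_C]

theorem pl_map (φ : F →+* E) {n : ℕ} (A B : Matrix (Fin n) (Fin n) F) (l : Fin n → F) :
    pl (A.map φ) (B.map φ) (fun i => φ (l i)) = (pl A B l).map φ := by
  unfold pl
  rw [← coe_mapRingHom, RingHom.map_dotProduct, pen_map, cc_map, ← RingHom.map_adjugate]
  congr 1
  funext i
  rw [Function.comp_apply, RingHom.map_mulVec, RingHom.mapMatrix_apply]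

theorem pl_smul {n : ℕ} (A B : Matrix (Fin n) (Fin n) F) (l : Fin n → F) (s : F) :
    pl A B (s • l) = C (s ^ 2) * pl A B l := by
  have h : cc (s • l) = (C s : F[X]) • cc l := by
    funext i
    simp only [cc, Pi.smul_apply, smul_eq_mul, C_mul]
  unfold pl
  rw [h, mulVec_smul, smul_dotProduct, dotProduct_smul, smul_eq_mul, smul_eq_mul, ← mul_assoc,
    ← C_mul, ← pow_two]

theorem sep_C_mul {p : F[X]} {c : F} (hc : c ≠ 0) : (C c * p).Separable ↔ p.Separable := by
  constructor
  · intro h
    exact h.of_mul_right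
  · intro h
    exact Separable.unit_mul (isUnit_C.mpr (isUnit_iff_ne_zero.mpr hc)) h

theorem pf_GDM : T_GDM := by
  intro F E _ _ φ n A B l
  refine ⟨?_, pl_map φ A B l, fun s hs => ?_⟩
  · unfold Gd
    rw [pl_map, separable_map, natDegree_map]
  · unfold Gd
    rw [pl_smul, sep_C_mul (pow_ne_zero 2 hs), natDegree_C_mul (pow_ne_zero 2 hs)]

end Pool.Agent.H49.HN
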